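import Pool.Agent.W622.ETC.Stm

set_option autoImplicit false

/-! Project ELT (helper622), part N3: no minimal configuration of dimension at most three. -/

namespace Pool.Agent.W101.ELT

open Pool.Agent.W622.ETC Module

lemma one_dim {M : Type} [AddCommGroup M] [Module (ZMod 2) M] (S : Submodule (ZMod 2) M)
    (h : finrank (ZMod 2) S = 1) : ∃ k ∈ S, k ≠ 0 ∧ ∀ y ∈ S, y = 0 ∨ y = k := by
  obtain ⟨v, hv, h1⟩ := finrank_eq_one_iff'.1 h
  refine ⟨v, v.2, fun h0 => hv (Subtype.ext h0), fun y hy => ?_⟩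
  obtain ⟨c, hc⟩ := h1 ⟨y, hy⟩
  have hc' : c • (v : M) = y := congrArg Subtype.val hc
  rcases z01 c with rfl | rfl
  · left
    rw [← hc', zero_smul]
  · right
    rw [← hc', one_smul]

section
variable {V : Type} [AddCommGroup V] [Module (ZMod 2) V]

/-- the values of `A` at `x` -/
def iv (A : Fam V) (x : V) : DSub V := Submodule.map (LinearMap.applyₗ x) A

lemma mem_iv {A : Fam V} {x : V} {f : Dl V} : f ∈ iv A x ↔ ∃ ω ∈ A, ω x = f := Iff.rfl

end

theorem t_N3 (hEVEN : S_EVEN) (hRIG : S_RIG) : S_N3 := by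
  classical
  intro V _ _ _ A hMC hn
  -- the values at `x`
  have hne : ∀ x : V, x ≠ 0 → iv A x ≠ ⊥ := by
    intro x hx hbot
    have h1 : supp A ≤ ann x := by
      refine supp_le.2 fun ω hω a => ?_
      have h2 : ω x = 0 := by
        have : ω x ∈ iv A x := mem_iv.2 ⟨ω, hω, rfl⟩
        rw [hbot] at this
        exact (Submodule.mem_bot _).1 this
      exact (hMC.alt ω hω).mem_ann h2 a
    rw [hMC.top] at h1
    exact ann_ne_top hx (top_le_iff.1 h1)
  have hlt : ∀ x : V, x ≠ 0 → iv A x < ann x := by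
    intro x hx
    refine lt_of_le_of_ne ?_ ?_
    · rintro f ⟨ω, hω, rfl⟩
      exact hMC.alt ω hω x
    · intro heq
      refine hMC.nel (hRIG V A x hMC.alt hMC.her hx (fun f hf => ?_) (hMC.el _ (ann_ne_top hx)))
      have : f ∈ iv A x := by
        rw [heq]
        exact hf
      exact mem_iv.1 this
  -- dimensions
  have hdim : ∀ x : V, x ≠ 0 → finrank (ZMod 2) (iv A x) = 1 ∧ finrank (ZMod 2) V = 3 := by
    intro x hx
    have h1 := Submodule.finrank_lt_finrank_of_lt (hlt x hx)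
    have h2 := finrank_ann hx
    have h3 : finrank (ZMod 2) (iv A x) ≠ 0 := by
      intro h0
      exact hne x hx (Submodule.finrank_eq_zero.1 h0)
    omega
  have hF : ∀ x : V, x ≠ 0 → ∃ f : Dl V, f ≠ 0 ∧ (∃ ω ∈ A, ω x = f) ∧
      ∀ ω ∈ A, ω x = 0 ∨ ω x = f := by
    intro x hx
    obtain ⟨f, hf, hf0, hf1⟩ := one_dim _ (hdim x hx).1
    exact ⟨f, hf0, mem_iv.1 hf, fun ω hω => hf1 _ (mem_iv.2 ⟨ω, hω, rfl⟩)⟩
  -- there is a nonzero vector
  obtain ⟨x₀, hx₀⟩ : ∃ x : V, x ≠ 0 := by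
    by_contra hcon
    push Not at hcon
    have : A = ⊥ := by
      rw [eq_bot_iff]
      intro ω _
      rw [Submodule.mem_bot]
      refine LinearMap.ext fun a => ?_
      rw [hcon a, map_zero, map_zero]
    exact hMC.nel (this ▸ El.zero)
  have hV := (hdim x₀ hx₀).2
  have hK : ∀ ω ∈ A, ω ≠ 0 → ∃ k : V, k ≠ 0 ∧ ω k = 0 ∧ ∀ y, ω y = 0 → y = 0 ∨ y = k := by
    intro ω hω hω0
    have h1 := hEVEN V ω (hMC.alt ω hω)
    have h2 := finrank_sp_add_ker ω
    have h3 : finrank (ZMod 2) (sp ω) ≠ 0 := by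
      intro h0
      exact hω0 (sp_eq_bot.1 (Submodule.finrank_eq_zero.1 h0))
    have h4 : finrank (ZMod 2) (LinearMap.ker ω) = 1 := by
      obtain ⟨r, hr⟩ := h1
      omega
    obtain ⟨k, hk, hk0, hk1⟩ := one_dim _ h4
    exact ⟨k, hk0, LinearMap.mem_ker.1 hk, fun y hy => hk1 y (LinearMap.mem_ker.2 hy)⟩
  obtain ⟨f₀, hf₀, ⟨ω, hω, hωx⟩, _⟩ := hF x₀ hx₀
  have hω0 : ω ≠ 0 := by
    rintro rfl
    exact hf₀ hωx.symm
  obtain ⟨k, hk0, hωk, hk⟩ := hK ω hω hω0
  obtain ⟨f, hf0, ⟨η, hη, hηk⟩, hf⟩ := hF k hk0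
  have hη0 : η ≠ 0 := by
    rintro rfl
    exact hf0 hηk.symm
  obtain ⟨k', hk'0, hηk', hk'⟩ := hK η hη hη0
  have hkk' : k' ≠ k := by
    rintro rfl
    exact hf0 (hηk.symm.trans hηk')
  have hωk' : ω k' ≠ 0 := by
    intro h
    rcases hk k' h with h1 | h1
    · exact hk'0 h1
    · exact hkk' h1
  have hs0 : k + k' ≠ 0 := fun h => hkk' (Pool.Agent.W622.ETC.add_eq_zero'.1 h).symm
  obtain ⟨f2, hf20, _, hf2⟩ := hF (k + k') hs0
  -- the values at `k + k'`
  have e1 : ω (k + k') = ω k' := by rw [map_add, hωk, zero_add]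
  have e2 : η (k + k') = f := by rw [map_add, hηk', add_zero, hηk]
  have e3 : ω k' = f2 := by
    rcases hf2 ω hω with h | h
    · exact absurd (e1.symm.trans h) hωk'
    · exact e1.symm.trans h
  have e4 : f = f2 := by
    rcases hf2 η hη with h | h
    · exact absurd (e2.symm.trans h) hf0
    · exact e2.symm.trans h
  have hsum : (ω + η) (k + k') = 0 := by
    rw [LinearMap.add_apply, e1, e2, e3, e4]
    exact vadd f2
  -- a vector outside the span of `k` and `k'`
  obtain ⟨a, ha⟩ : ∃ a : V, a ∉ Submodule.span (ZMod 2) {k, k'} := by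
    by_contra hcon
    push Not at hcon
    have htop : Submodule.span (ZMod 2) {k, k'} = ⊤ := eq_top_iff.2 fun a _ => hcon a
    have h1 := finrank_span_le_card (R := ZMod 2) ({k, k'} : Set V)
    have h2 : ({k, k'} : Set V).toFinset.card ≤ 2 := by
      rw [Set.toFinset_insert, Set.toFinset_singleton]
      exact Finset.card_le_two
    rw [htop, finrank_top, hV] at h1
    omega
  rw [span_pair_mem] at ha
  push Not at ha
  obtain ⟨ha0, hak, hak', haκ⟩ := ha
  obtain ⟨f3, _, _, hf3⟩ := hF a ha0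
  have hωa : ω a ≠ 0 := by
    intro h
    rcases hk a h with h1 | h1
    · exact ha0 h1
    · exact hak h1
  have hηa : η a ≠ 0 := by
    intro h
    rcases hk' a h with h1 | h1
    · exact ha0 h1
    · exact hak' h1
  have hsa : (ω + η) a = 0 := by
    rw [LinearMap.add_apply, (hf3 ω hω).resolve_left hωa, (hf3 η hη).resolve_left hηa]
    exact vadd f3
  have hne' : ω + η ≠ 0 := by
    intro h
    have : (ω + η) k = 0 := by
      rw [h]
      rfl
    rw [LinearMap.add_apply, hωk, zero_add, hηk] at this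
    exact hf0 this
  obtain ⟨κ, _, _, hκ⟩ := hK (ω + η) (A.add_mem hω hη) hne'
  have h1 := (hκ a hsa).resolve_left ha0
  have h2 := (hκ _ hsum).resolve_left hs0
  exact haκ (h1.trans h2.symm)

end Pool.Agent.W101.ELT
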